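import Pool.Agent.helper64.PB.SpecL

set_option autoImplicit false

namespace Pool.Agent.PB

theorem QWL_mono {G : Set Gate} {n : ℕ} {f : BF n} {s t : ℕ} (h : Size G f s) (hst : s ≤ t) :
    Size G f t := by
  obtain ⟨l, h1, h2, h3⟩ := h
  exact ⟨l, h1, h2.trans hst, h3⟩

theorem QWL_ren (hSUB : SUB_stmt) {G : Set Gate} {m n : ℕ} {F : BF m} {s : ℕ} (r : Fin m → Fin n)
    (h : Size G F s) : Size G (fun x : Fin n → Bool => F fun i => x (r i)) s := by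
  obtain ⟨l', h1, h2, h3⟩ := hSUB G m n F s [] (fun i => fun x => x (r i)) h Prog.nil
    (fun i => Or.inr ⟨r i, rfl⟩)
  rw [List.append_nil] at h1 h3
  exact ⟨l', h1, h2, h3⟩

theorem QWL_e (c e₀ n : ℕ) (hc : 1 ≤ c) (h : c * 2 ^ (16 * e₀) ≤ n) :
    ∃ e, e₀ ≤ e ∧ c * 2 ^ (16 * e) ≤ n ∧ n < c * 2 ^ (16 * (e + 1)) := by
  have hex : ∃ k, n < c * 2 ^ (16 * (e₀ + k + 1)) := by
    refine ⟨n, ?_⟩
    have h1 : n < 2 ^ n := Nat.lt_two_pow_self
    have h2 : 2 ^ n ≤ 2 ^ (16 * (e₀ + n + 1)) := Nat.pow_le_pow_right (by norm_num) (by omega)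
    have h3 : 2 ^ (16 * (e₀ + n + 1)) ≤ c * 2 ^ (16 * (e₀ + n + 1)) :=
      Nat.le_mul_of_pos_left _ hc
    omega
  classical
  have h1 := Nat.find_spec hex
  rcases Nat.eq_zero_or_pos (Nat.find hex) with h0 | h0
  · refine ⟨e₀, le_rfl, h, ?_⟩
    rw [h0] at h1
    exact h1
  · obtain ⟨k, hk⟩ : ∃ k, Nat.find hex = k + 1 := ⟨Nat.find hex - 1, by omega⟩
    have h2 := Nat.find_min hex (m := k) (by omega)
    rw [hk] at h1
    refine ⟨e₀ + (k + 1), by omega, ?_, h1⟩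
    have h3 := not_lt.mp h2
    exact h3

theorem QWL_zero : Size std (fun _ : Fin 0 → Bool => false) 1 := by
  refine ⟨[fun x => (gConst false).2 fun i => (fun _ => fun _ => false : Fin 0 → BF 0) i x], ?_, ?_, ?_⟩
  · exact Prog.step [] (gConst false) (fun _ => fun _ => false) Prog.nil (by simp [std])
      (fun i => Fin.elim0 i)
  · simp
  · left
    exact List.mem_singleton.mpr rfl

theorem QWL_slice (hSUB : SUB_stmt) (G : Set Gate) (c C e₀ : ℕ) (hc : 1 ≤ c)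
    (hF : ∀ e, e₀ ≤ e → ∃ m, 1 ≤ m ∧ m ≤ c * 2 ^ (16 * e) ∧ ∃ f : BF m, InCl G f ∧
      Size std f (c * (2 ^ (C * e) + 2 ^ (16 * e))) ∧ ∀ s, Size G f s → 2 ^ (2 ^ e) ≤ c * (s + 1))
    (n : ℕ) : ∃ g : BF n, Size std g (c * ((n + 2) ^ C + n + C + 2)) ∧ (1 ≤ n → ∃ s, Size G g s) ∧
      (c * 2 ^ (16 * e₀) ≤ n → ∃ e, n < c * 2 ^ (16 * (e + 1)) ∧
        ∀ s, Size G g s → 2 ^ (2 ^ e) ≤ c * (s + 1)) := by
  have hcpos : 0 < c := hc
  by_cases h : c * 2 ^ (16 * e₀) ≤ n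
  · obtain ⟨e, he0, he1, he2⟩ := QWL_e c e₀ n hc h
    obtain ⟨m, hm1, hm2, f, hf1, hf2, hf3⟩ := hF e he0
    have hmn : m ≤ n := hm2.trans he1
    refine ⟨fun x => f fun i => x (Fin.castLE hmn i), ?_, ?_, ?_⟩
    · refine QWL_mono (QWL_ren hSUB (Fin.castLE hmn) hf2) ?_
      apply Nat.mul_le_mul_left
      have h1 : 2 ^ (16 * e) ≤ n := (Nat.le_mul_of_pos_left _ hcpos).trans he1
      have h2 : 2 ^ (C * e) ≤ (n + 2) ^ C := by
        rw [mul_comm, pow_mul]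
        apply Nat.pow_le_pow_left
        have h3 : 2 ^ e ≤ 2 ^ (16 * e) := Nat.pow_le_pow_right (by norm_num) (by omega)
        omega
      omega
    · intro _
      obtain ⟨s, hs⟩ := hf1
      exact ⟨s, QWL_ren hSUB (Fin.castLE hmn) hs⟩
    · intro _
      refine ⟨e, he2, ?_⟩
      intro s hs
      apply hf3
      have h1 := QWL_ren hSUB (fun j : Fin n => if hj : (j : ℕ) < m then (⟨j, hj⟩ : Fin m) else ⟨0, hm1⟩) hs
      have h2 : (fun x : Fin m → Bool => f fun i => x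
          ((fun j : Fin n => if hj : (j : ℕ) < m then (⟨j, hj⟩ : Fin m) else ⟨0, hm1⟩)
            (Fin.castLE hmn i))) = f := by
        funext x
        congr 1
        funext i
        have h3 : ((Fin.castLE hmn i : Fin n) : ℕ) < m := i.2
        show x (if hj : ((Fin.castLE hmn i : Fin n) : ℕ) < m then
          (⟨(Fin.castLE hmn i : Fin n), hj⟩ : Fin m) else ⟨0, hm1⟩) = x i
        rw [dif_pos h3]
        rfl
      rw [h2] at h1
      exact h1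
  · rcases Nat.eq_zero_or_pos n with h0 | h0
    · subst h0
      refine ⟨fun _ => false, ?_, ?_, ?_⟩
      · refine QWL_mono QWL_zero ?_
        have h2 : 1 ≤ (0 + 2) ^ C + 0 + C + 2 := Nat.le_add_left_of_le (by norm_num)
        have : 1 * 1 ≤ c * ((0 + 2) ^ C + 0 + C + 2) := Nat.mul_le_mul hc h2
        simpa using this
      · intro h1
        omega
      · intro h1
        exact absurd h1 h
    · refine ⟨fun x => x ⟨0, h0⟩, ?_, ?_, ?_⟩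
      · exact ⟨[], Prog.nil, by simp, Or.inr ⟨⟨0, h0⟩, rfl⟩⟩
      · intro _
        exact ⟨0, [], Prog.nil, by simp, Or.inr ⟨⟨0, h0⟩, rfl⟩⟩
      · intro h1
        exact absurd h1 h

theorem QWL (hBAS : BAS_stmt) (hSUB : SUB_stmt) (hQNU : QNU_stmt) (hPOL : POL_stmt) : QWL_stmt := by
  intro G hG
  obtain ⟨c, hc⟩ := hG
  obtain ⟨C, e₀, he₀, hB⟩ := hBAS
  have hc1 : 1 ≤ c := by
    obtain ⟨m, hm1, hm2, -⟩ := hc 1 (fun _ => true) le_rfl (fun _ _ _ _ => rfl)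
    omega
  have hF : ∀ e, e₀ ≤ e → ∃ m, 1 ≤ m ∧ m ≤ c * 2 ^ (16 * e) ∧ ∃ f : BF m, InCl G f ∧
      Size std f (c * (2 ^ (C * e) + 2 ^ (16 * e))) ∧
        ∀ s, Size G f s → 2 ^ (2 ^ e) ≤ c * (s + 1) := by
    intro e he
    obtain ⟨h, hm, hs, hl⟩ := hB e he
    obtain ⟨m, hm1, hm2, f, hf1, hf2, hf3⟩ := hc (2 ^ (16 * e)) h Nat.one_le_two_pow hm
    exact ⟨m, hm1, hm2, f, hf1, hf2 _ hs, fun s hs' => hl _ (hf3 s hs')⟩
  choose A hA using QWL_slice hSUB G c C e₀ hc1 hF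
  obtain ⟨d, hd⟩ := hPOL c C
  obtain ⟨n₀, hn₀⟩ := hQNU c hc1
  refine ⟨A, ⟨d, fun n => QWL_mono (hA n).1 (hd n)⟩, fun n hn => (hA n).2.1 hn, 1 / 17, by norm_num,
    max n₀ (c * 2 ^ (16 * e₀)), ?_⟩
  intro n hn s hs
  obtain ⟨e, h1, h2⟩ := (hA n).2.2 ((le_max_right _ _).trans hn)
  exact hn₀ n ((le_max_left _ _).trans hn) e s h1 (h2 s hs)

end Pool.Agent.PB
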