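import Pool.Agent.helper64.PB.SpecW

set_option autoImplicit false

namespace Pool.Agent.PB

theorem SDG_fun2 (x : Fin 2 → Bool) (a b : Bool) (h0 : x 0 = a) (h1 : x 1 = b) : x = ![a, b] := by
  funext i
  fin_cases i
  · exact h0
  · exact h1

theorem SDG_base1 (f : BF 1) (hm : Mono f) (hs : SelfDual f) : f = fun x => x 0 := by
  funext x
  have e : ∀ b : Bool, x 0 = b → x = fun _ => b := by
    intro b hb
    funext i
    have : i = 0 := Subsingleton.elim _ _
    rw [this, hb]
  have h1 := hs (fun _ => false)
  have h2 := hm (fun _ => false) (fun _ => true) (fun _ _ => rfl)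
  simp only [Bool.not_false] at h1
  cases hx : x 0 with
  | false =>
    rw [e false hx]
    cases hf : f (fun _ => false) with
    | false => rfl
    | true =>
      have := h2 hf
      rw [h1, hf] at this
      simp at this
  | true =>
    rw [e true hx]
    cases hf : f (fun _ => false) with
    | false => rw [h1, hf]; rfl
    | true => exact h2 hf

theorem SDG_base2 (f : BF 2) (hm : Mono f) (hs : SelfDual f) :
    (f = fun x => x 0) ∨ (f = fun x => x 1) := by
  have n1 : (fun i => !((![false, false] : Fin 2 → Bool) i)) = ![true, true] := by
    funext i; fin_cases i <;> rfl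
  have n2 : (fun i => !((![false, true] : Fin 2 → Bool) i)) = ![true, false] := by
    funext i; fin_cases i <;> rfl
  have h1 := hs ![false, false]
  have h2 := hs ![false, true]
  rw [n1] at h1
  rw [n2] at h2
  have h3 := hm ![false, false] ![true, true] (by intro i; fin_cases i <;> simp)
  have h4 : f ![false, false] = false := by
    cases hf : f ![false, false] with
    | false => rfl
    | true =>
      have := h3 hf
      rw [h1, hf] at this
      simp at this
  have h5 : f ![true, true] = true := by rw [h1, h4]; rfl
  cases hf : f ![false, true] with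
  | false =>
    left
    funext x
    cases h0 : x 0 <;> cases h6 : x 1 <;> rw [SDG_fun2 x _ _ h0 h6]
    · exact h4
    · exact hf
    · rw [h2, hf]; rfl
    · exact h5
  | true =>
    right
    funext x
    cases h0 : x 0 <;> cases h6 : x 1 <;> rw [SDG_fun2 x _ _ h0 h6]
    · exact h4
    · exact hf
    · rw [h2, hf]; rfl
    · exact h5

theorem SDG_sub (hCLP : CLP_stmt) (G : Set Gate) (m : ℕ)
    (ih : ∀ f : BF m, Mono f → SelfDual f → InCl G f) (f : BF (m + 1)) (hm : Mono f)
    (hs : SelfDual f) (a b : Fin (m + 1)) (hab : b ≠ a) :
    InCl G (fun x => f fun i => x (if i = a then b else i)) := by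
  have key : ∀ i : Fin (m + 1), ∃ j : Fin m, a.succAbove j = if i = a then b else i := by
    intro i
    apply Fin.exists_succAbove_eq
    split_ifs with h
    · exact hab
    · exact h
  choose ψ hψ using key
  have h1 : InCl G (fun y : Fin m → Bool => f fun i => y (ψ i)) := by
    apply ih
    · intro x y hxy
      exact hm _ _ fun i => hxy (ψ i)
    · intro x
      exact hs (fun i => x (ψ i))
  have h2 := hCLP.2 G m (m + 1) (fun y : Fin m → Bool => f fun i => y (ψ i))
    (fun j => fun x => x (a.succAbove j)) h1 (fun j => hCLP.1 G (m + 1) (a.succAbove j))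
  have h3 : (fun x : Fin (m + 1) → Bool => f fun i => x (if i = a then b else i)) =
      fun x => (fun y : Fin m → Bool => f fun i => y (ψ i)) fun j => x (a.succAbove j) := by
    funext x
    show f _ = f _
    congr 1
    funext i
    show _ = x (a.succAbove (ψ i))
    rw [hψ i]
  rw [h3]
  exact h2

theorem SDG_med (a b c : Bool) (h1 : c = true → a = true) (h2 : a = true → b = true) :
    ((a && b) || (a && c) || (b && c)) = a := by
  cases a <;> cases b <;> cases c <;> simp_all

theorem SDG_med' (a b c : Bool) (h1 : b = true → a = true) (h2 : a = true → c = true) :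
    ((a && b) || (a && c) || (b && c)) = a := by
  cases a <;> cases b <;> cases c <;> simp_all

theorem SDG_step (m : ℕ) (f : BF (m + 3)) (hm : Mono f) (x : Fin (m + 3) → Bool)
    (p q r : Fin (m + 3)) (h : x p = x q) (g : Bool) (A B C : Bool)
    (hA : A = f fun i => x (if i = q then p else i))
    (hB : B = f fun i => x (if i = r then q else i))
    (hC : C = f fun i => x (if i = p then r else i)) (hg : g = f x) :
    ((A && B) || (A && C) || (B && C)) = g := by
  have e1 : A = f x := by
    rw [hA]
    congr 1
    funext i
    split_ifs with h1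
    · rw [h1, h]
    · rfl
  rw [hg, e1]
  cases hv : x q with
  | false =>
    apply SDG_med'
    · rw [hB]
      apply hm
      intro i
      split_ifs with h1
      · rw [hv]; intro h2; cases h2
      · exact id
    · rw [hC]
      apply hm
      intro i
      split_ifs with h1
      · rw [h1, h, hv]; intro h2; cases h2
      · exact id
  | true =>
    apply SDG_med
    · rw [hC]
      apply hm
      intro i
      split_ifs with h1
      · intro _; rw [h1, h, hv]
      · exact id
    · rw [hB]
      apply hm
      intro i
      split_ifs with h1
      · intro _; exact hv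
      · exact id

theorem SDG_maj (m : ℕ) (f : BF (m + 3)) (hm : Mono f) (x : Fin (m + 3) → Bool)
    (p q r : Fin (m + 3)) (A B C : Bool)
    (hA : A = f fun i => x (if i = q then p else i))
    (hB : B = f fun i => x (if i = r then q else i))
    (hC : C = f fun i => x (if i = p then r else i)) :
    ((A && B) || (A && C) || (B && C)) = f x := by
  by_cases h1 : x p = x q
  · exact SDG_step m f hm x p q r h1 _ A B C hA hB hC rfl
  by_cases h2 : x q = x r
  · have := SDG_step m f hm x q r p h2 _ B C A hB hC hA rfl
    rw [← this]
    cases A <;> cases B <;> cases C <;> rfl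
  have h3 : x r = x p := by
    cases h4 : x p <;> cases h5 : x q <;> cases h6 : x r <;> simp_all
  have := SDG_step m f hm x r p q h3 _ C A B hC hA hB rfl
  rw [← this]
  cases A <;> cases B <;> cases C <;> rfl

theorem SDG_main (hCLP : CLP_stmt) (G : Set Gate) (hG : InCl G fMaj) :
    ∀ m : ℕ, ∀ f : BF (m + 2), Mono f → SelfDual f → InCl G f := by
  intro m
  induction m with
  | zero =>
    intro f hm hs
    rcases SDG_base2 f hm hs with h | h <;> rw [h]
    · exact hCLP.1 G _ _
    · exact hCLP.1 G _ _
  | succ m ih =>
    intro f hm hs
    have d10 : (1 : Fin (m + 2 + 1)) ≠ 0 := by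
      intro h
      have := congrArg Fin.val h
      simp at this
    have v2 : ((⟨2, by omega⟩ : Fin (m + 2 + 1)) : ℕ) = 2 := rfl
    set t : Fin (m + 2 + 1) := ⟨2, by omega⟩ with ht
    have d21 : t ≠ 1 := by
      intro h
      have := congrArg Fin.val h
      rw [v2] at this
      simp at this
    have d20 : t ≠ 0 := by
      intro h
      have := congrArg Fin.val h
      rw [v2] at this
      simp at this
    have hA := SDG_sub hCLP G (m + 2) ih f hm hs 1 0 d10.symm
    have hB := SDG_sub hCLP G (m + 2) ih f hm hs t 1 d21.symm
    have hC := SDG_sub hCLP G (m + 2) ih f hm hs 0 t d20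
    have h2 := hCLP.2 G 3 (m + 2 + 1) fMaj
      ![(fun x => f fun i => x (if i = 1 then 0 else i)), (fun x => f fun i => x (if i = t then 1 else i)),
        (fun x => f fun i => x (if i = 0 then t else i))] hG (by
          intro i
          fin_cases i
          · exact hA
          · exact hB
          · exact hC)
    have h3 : f = fun x => fMaj fun i =>
      (![(fun x => f fun i => x (if i = 1 then 0 else i)), (fun x => f fun i => x (if i = t then 1 else i)),
        (fun x => f fun i => x (if i = 0 then t else i))] : Fin 3 → BF (m + 2 + 1)) i x := by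
      funext x
      exact (SDG_maj m f hm x 0 1 t _ _ _ rfl rfl rfl).symm
    rw [h3]
    exact h2

theorem SDG (hCLP : CLP_stmt) : SDG_stmt := by
  intro G hG n hn f hm hs
  match n, hn, f, hm, hs with
  | 1, _, f, hm, hs =>
    rw [SDG_base1 f hm hs]
    exact hCLP.1 G _ _
  | m + 2, _, f, hm, hs => exact SDG_main hCLP G hG m f hm hs

end Pool.Agent.PB
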